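import Mathlib

namespace Pool.Agent.Results.MP_c90a8c_co.LinkRecurrence

open Finset

/-- `area(γ) = ∑ γ_i - #{i : γ_i > 0}` (the subtraction is exact, see `area_add`). -/
def area {n : ℕ} (γ : Fin n → ℕ) : ℕ :=
  (∑ i, γ i) - (univ.filter fun i => 0 < γ i).card

/-- `dinv(γ, π)`. -/
def dinv {n : ℕ} (γ : Fin n → ℕ) (π : Fin n → ℕ+) : ℕ :=
  (univ.filter fun p : Fin n × Fin n => p.1 < p.2 ∧ γ p.1 = γ p.2 ∧ π p.2 < π p.1).card +
  (univ.filter fun p : Fin n × Fin n =>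
    p.1 < p.2 ∧ γ p.2 = γ p.1 + 1 ∧ π p.1 < π p.2).card

/-- The exponent vector of the monomial `x^π = ∏ x_{π_i}`. -/
noncomputable def wt {n : ℕ} (π : Fin n → ℕ+) : ℕ+ →₀ ℕ :=
  ∑ i, Finsupp.single (π i) 1

/-- The pairs of words `(γ, π)` with `γ_i = 0 ↔ v_i = 1` that contribute the monomial
`q^(d 0) t^(d 1) x^m` to `L_v`. -/
def words {n : ℕ} (v : Fin n → Fin 2) (m : ℕ+ →₀ ℕ) (d : Fin 2 →₀ ℕ) :
    Set ((Fin n → ℕ) × (Fin n → ℕ+)) :=
  {p | (∀ i, p.1 i = 0 ↔ v i = 1) ∧ wt p.2 = m ∧ area p.1 = d 0 ∧ dinv p.1 p.2 = d 1}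

/-- The link symmetric function `L_v`, a formal power series in `x_1, x_2, …` with coefficients in
`ℤ[[q, t]]` (`q = X 0`, `t = X 1`): the coefficient of `q^(d 0) t^(d 1) x^m` is the number of pairs
`(γ, π)` contributing this monomial (a finite number, see `words_finite`). -/
noncomputable def L {n : ℕ} (v : Fin n → Fin 2) :
    MvPowerSeries ℕ+ (MvPowerSeries (Fin 2) ℤ) :=
  fun m d => (Nat.card (words v m d) : ℤ)

/-- The variable `q` of `ℤ[[q, t]]`. -/
noncomputable def q : MvPowerSeries (Fin 2) ℤ := MvPowerSeries.X 0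

lemma card_pos_le {n : ℕ} (γ : Fin n → ℕ) :
    (univ.filter fun i => 0 < γ i).card ≤ ∑ i, γ i := by
  rw [Finset.card_filter]
  apply Finset.sum_le_sum
  intro i _
  split_ifs <;> omega

lemma area_add {n : ℕ} (γ : Fin n → ℕ) :
    area γ + (univ.filter fun i => 0 < γ i).card = ∑ i, γ i :=
  Nat.sub_add_cancel (card_pos_le γ)

lemma area_add' {n : ℕ} (γ : Fin n → ℕ) :
    area γ + ∑ i, (if 0 < γ i then 1 else 0) = ∑ i, γ i := by
  rw [← area_add γ, Finset.card_filter]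

lemma le_area {n : ℕ} (γ : Fin n → ℕ) (i : Fin n) : γ i ≤ area γ + 1 := by
  have h1 := area_add' γ
  have h2 : area γ = ∑ j, (γ j - (if 0 < γ j then 1 else 0)) := by
    have : ∑ j, γ j = ∑ j, (γ j - (if 0 < γ j then 1 else 0)) +
        ∑ j, (if 0 < γ j then 1 else 0) := by
      rw [← Finset.sum_add_distrib]
      apply Finset.sum_congr rfl
      intro j _
      split_ifs <;> omega
    omega
  have h3 : γ i - (if 0 < γ i then 1 else 0) ≤
      ∑ j, (γ j - (if 0 < γ j then 1 else 0)) :=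
    Finset.single_le_sum (f := fun j => γ j - (if 0 < γ j then 1 else 0))
      (fun _ _ => Nat.zero_le _) (Finset.mem_univ i)
  split_ifs at h3 <;> omega

lemma mem_support_wt {n : ℕ} (π : Fin n → ℕ+) (i : Fin n) : π i ∈ (wt π).support := by
  rw [Finsupp.mem_support_iff, wt, Finsupp.finsetSum_apply]
  have : 1 ≤ ∑ j, (Finsupp.single (π j) 1 : ℕ+ →₀ ℕ) (π i) := by
    have h := Finset.single_le_sum
      (f := fun j => (Finsupp.single (π j) 1 : ℕ+ →₀ ℕ) (π i))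
      (fun _ _ => Nat.zero_le _) (Finset.mem_univ i)
    simpa using h
  omega

/-- Every monomial occurs finitely often. -/
lemma words_finite {n : ℕ} (v : Fin n → Fin 2) (m : ℕ+ →₀ ℕ) (d : Fin 2 →₀ ℕ) :
    (words v m d).Finite := by
  have h1 : {f : Fin n → ℕ | ∀ i, f i ∈ Set.Iic (d 0 + 1)}.Finite :=
    Set.Finite.pi' fun _ => Set.finite_Iic _
  have h2 : {f : Fin n → ℕ+ | ∀ i, f i ∈ ((m.support : Finset ℕ+) : Set ℕ+)}.Finite :=
    Set.Finite.pi' fun _ => Finset.finite_toSet _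
  apply (h1.prod h2).subset
  rintro ⟨γ, π⟩ ⟨_, hw, ha, _⟩
  refine ⟨?_, ?_⟩
  · intro i
    simp only [Set.mem_Iic]
    have := le_area γ i
    simp only at ha
    omega
  · intro i
    simp only at hw
    rw [← hw]
    exact mem_support_wt π i

/-- Moving the last letter to the front, and lowering the last level by one. -/
def rot {n : ℕ} (p : (Fin (n + 1) → ℕ) × (Fin (n + 1) → ℕ+)) :
    (Fin (n + 1) → ℕ) × (Fin (n + 1) → ℕ+) :=
  (Fin.cons (p.1 (Fin.last n) - 1) (Fin.init p.1), Fin.cons (p.2 (Fin.last n)) (Fin.init p.2))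

/-- The inverse of `rot`. -/
def unrot {n : ℕ} (p : (Fin (n + 1) → ℕ) × (Fin (n + 1) → ℕ+)) :
    (Fin (n + 1) → ℕ) × (Fin (n + 1) → ℕ+) :=
  (Fin.snoc (Fin.tail p.1) (p.1 0 + 1), Fin.snoc (Fin.tail p.2) (p.2 0))

lemma rot_unrot {n : ℕ} (p : (Fin (n + 1) → ℕ) × (Fin (n + 1) → ℕ+)) :
    rot (unrot p) = p := by
  rcases p with ⟨γ, π⟩
  simp [rot, unrot, Fin.init_snoc, Fin.cons_self_tail]

lemma unrot_rot {n : ℕ} (p : (Fin (n + 1) → ℕ) × (Fin (n + 1) → ℕ+))
    (h : p.1 (Fin.last n) ≠ 0) : unrot (rot p) = p := by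
  rcases p with ⟨γ, π⟩
  simp only at h
  have : γ (Fin.last n) - 1 + 1 = γ (Fin.last n) := by omega
  simp [rot, unrot, Fin.tail_cons, this, Fin.snoc_init_self]

lemma wt_snoc {n : ℕ} (π : Fin n → ℕ+) (b : ℕ+) :
    wt (Fin.snoc π b : Fin (n + 1) → ℕ+) = wt π + Finsupp.single b 1 := by
  simp only [wt]
  rw [Fin.sum_univ_castSucc]
  simp

lemma wt_cons {n : ℕ} (π : Fin n → ℕ+) (b : ℕ+) :
    wt (Fin.cons b π : Fin (n + 1) → ℕ+) = wt π + Finsupp.single b 1 := by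
  simp only [wt]
  rw [Fin.sum_univ_succ]
  simp [add_comm]

lemma area_snoc {n : ℕ} (γ : Fin n → ℕ) (a : ℕ) :
    area (Fin.snoc γ (a + 1) : Fin (n + 1) → ℕ) = area γ + a := by
  have h1 := area_add' (Fin.snoc γ (a + 1) : Fin (n + 1) → ℕ)
  have h2 := area_add' γ
  rw [Fin.sum_univ_castSucc, Fin.sum_univ_castSucc] at h1
  simp only [Fin.snoc_castSucc, Fin.snoc_last] at h1
  rw [if_pos (Nat.succ_pos _)] at h1
  omega

lemma area_cons {n : ℕ} (γ : Fin n → ℕ) (a : ℕ) :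
    area (Fin.cons a γ : Fin (n + 1) → ℕ) + (if 0 < a then 1 else 0) = area γ + a := by
  have h1 := area_add' (Fin.cons a γ : Fin (n + 1) → ℕ)
  have h2 := area_add' γ
  rw [Fin.sum_univ_succ, Fin.sum_univ_succ] at h1
  simp only [Fin.cons_zero, Fin.cons_succ] at h1
  omega

lemma dinv_eq {n : ℕ} (γ : Fin n → ℕ) (π : Fin n → ℕ+) :
    dinv γ π =
      (∑ i, ∑ j, if (i < j ∧ γ i = γ j ∧ π j < π i) then 1 else 0) +
      (∑ i, ∑ j, if (i < j ∧ γ j = γ i + 1 ∧ π i < π j) then 1 else 0) := by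
  rw [dinv, Finset.card_filter, Finset.card_filter, ← Finset.univ_product_univ,
    Finset.sum_product, Finset.sum_product]

lemma dinv_snoc {n : ℕ} (γ : Fin n → ℕ) (π : Fin n → ℕ+) (a : ℕ) (b : ℕ+) :
    dinv (Fin.snoc γ a : Fin (n + 1) → ℕ) (Fin.snoc π b : Fin (n + 1) → ℕ+) =
      dinv γ π + (∑ i, if (γ i = a ∧ b < π i) then 1 else 0) +
        (∑ i, if (a = γ i + 1 ∧ π i < b) then 1 else 0) := by
  rw [dinv_eq, dinv_eq]
  simp only [Fin.sum_univ_castSucc, Fin.snoc_castSucc, Fin.snoc_last,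
    Fin.castSucc_lt_castSucc_iff, Fin.castSucc_lt_last, true_and, lt_self_iff_false, false_and,
    if_false, Finset.sum_add_distrib, not_lt_of_gt (Fin.castSucc_lt_last _),
    Finset.sum_const_zero, add_zero]
  ring

lemma dinv_cons {n : ℕ} (γ : Fin n → ℕ) (π : Fin n → ℕ+) (a : ℕ) (b : ℕ+) :
    dinv (Fin.cons a γ : Fin (n + 1) → ℕ) (Fin.cons b π : Fin (n + 1) → ℕ+) =
      dinv γ π + (∑ i, if (γ i = a + 1 ∧ b < π i) then 1 else 0) +
        (∑ i, if (a + 1 = γ i + 1 ∧ π i < b) then 1 else 0) := by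
  rw [dinv_eq, dinv_eq]
  simp only [Fin.sum_univ_succ, Fin.cons_zero, Fin.cons_succ,
    Fin.succ_lt_succ_iff, Fin.succ_pos, true_and, false_and,
    if_false, Fin.not_lt_zero, zero_add, Nat.add_right_cancel_iff]
  ring

lemma wt_unrot {n : ℕ} (p : (Fin (n + 1) → ℕ) × (Fin (n + 1) → ℕ+)) :
    wt (unrot p).2 = wt p.2 := by
  rcases p with ⟨γ, π⟩
  rw [← Fin.cons_self_tail π]
  simp only [unrot, Fin.tail_cons, Fin.cons_zero, wt_snoc, wt_cons]

lemma area_unrot {n : ℕ} (p : (Fin (n + 1) → ℕ) × (Fin (n + 1) → ℕ+)) :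
    area (unrot p).1 = area p.1 + if 0 < p.1 0 then 1 else 0 := by
  rcases p with ⟨γ, π⟩
  rw [← Fin.cons_self_tail γ]
  simp only [unrot, Fin.tail_cons, Fin.cons_zero, area_snoc, area_cons]

lemma dinv_unrot {n : ℕ} (p : (Fin (n + 1) → ℕ) × (Fin (n + 1) → ℕ+)) :
    dinv (unrot p).1 (unrot p).2 = dinv p.1 p.2 := by
  rcases p with ⟨γ, π⟩
  rw [← Fin.cons_self_tail π, ← Fin.cons_self_tail γ]
  simp only [unrot, Fin.tail_cons, Fin.cons_zero, dinv_snoc, dinv_cons]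

/-- The words of type `v0` are, by rotation, the words of type `1v` and those of type `0v` with
one `q` less. -/
lemma mem_words_snoc {n : ℕ} (v : Fin n → Fin 2) (m : ℕ+ →₀ ℕ) (d : Fin 2 →₀ ℕ)
    (p : (Fin (n + 1) → ℕ) × (Fin (n + 1) → ℕ+)) :
    unrot p ∈ words (Fin.snoc v 0 : Fin (n + 1) → Fin 2) m d ↔
      (∀ i : Fin n, p.1 i.succ = 0 ↔ v i = 1) ∧ wt p.2 = m ∧
        (area p.1 + if 0 < p.1 0 then 1 else 0) = d 0 ∧ dinv p.1 p.2 = d 1 := by
  have h1 : (∀ i : Fin (n + 1), (unrot p).1 i = 0 ↔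
      (Fin.snoc v 0 : Fin (n + 1) → Fin 2) i = 1) ↔ (∀ i : Fin n, p.1 i.succ = 0 ↔ v i = 1) := by
    rw [Fin.forall_fin_succ']
    simp [unrot, Fin.tail]
  simp only [words, Set.mem_ofPred_eq]
  rw [h1, wt_unrot, area_unrot, dinv_unrot]

lemma card_words_snoc {n : ℕ} (v : Fin n → Fin 2) (m : ℕ+ →₀ ℕ) (d : Fin 2 →₀ ℕ) :
    Nat.card (words (Fin.snoc v 0 : Fin (n + 1) → Fin 2) m d) =
      Nat.card (words (Fin.cons 1 v : Fin (n + 1) → Fin 2) m d) +
      (if Finsupp.single 0 1 ≤ d then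
        Nat.card (words (Fin.cons 0 v : Fin (n + 1) → Fin 2) m (d - Finsupp.single 0 1)) else 0) := by
  have hinj : Function.Injective
      (unrot : (Fin (n + 1) → ℕ) × (Fin (n + 1) → ℕ+) → _) :=
    Function.LeftInverse.injective (g := rot) rot_unrot
  have himg : words (Fin.snoc v 0 : Fin (n + 1) → Fin 2) m d =
      unrot '' {p | unrot p ∈ words (Fin.snoc v 0 : Fin (n + 1) → Fin 2) m d} := by
    ext p
    constructor
    · intro hp
      have hlast : p.1 (Fin.last n) ≠ 0 := by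
        intro h
        have := (hp.1 (Fin.last n)).1 h
        simp at this
      refine ⟨rot p, ?_, unrot_rot p hlast⟩
      simp only [Set.mem_ofPred_eq]
      rw [unrot_rot p hlast]
      exact hp
    · rintro ⟨p', hp', rfl⟩
      exact hp'
  have hA : words (Fin.cons 1 v : Fin (n + 1) → Fin 2) m d =
      {p | unrot p ∈ words (Fin.snoc v 0 : Fin (n + 1) → Fin 2) m d ∧ p.1 0 = 0} := by
    ext p
    simp only [Set.mem_ofPred_eq]
    rw [mem_words_snoc]
    simp only [words, Set.mem_ofPred_eq]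
    rw [Fin.forall_fin_succ]
    simp only [Fin.cons_zero, Fin.cons_succ, iff_true]
    constructor
    · rintro ⟨⟨h0, h1⟩, h2, h3, h4⟩
      refine ⟨⟨h1, h2, ?_, h4⟩, h0⟩
      rw [h0]
      simpa using h3
    · rintro ⟨⟨h1, h2, h3, h4⟩, h0⟩
      refine ⟨⟨h0, h1⟩, h2, ?_, h4⟩
      rw [h0] at h3
      simpa using h3
  have hB : {p | unrot p ∈ words (Fin.snoc v 0 : Fin (n + 1) → Fin 2) m d ∧ p.1 0 ≠ 0} =
      if Finsupp.single 0 1 ≤ d then
        words (Fin.cons 0 v : Fin (n + 1) → Fin 2) m (d - Finsupp.single 0 1) else ∅ := by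
    ext p
    simp only [Set.mem_ofPred_eq]
    rw [mem_words_snoc]
    have hle : Finsupp.single 0 1 ≤ d ↔ 1 ≤ d 0 := by
      rw [Finsupp.single_le_iff]
    by_cases h : (Finsupp.single 0 1 : Fin 2 →₀ ℕ) ≤ d
    · rw [if_pos h]
      rw [hle] at h
      simp only [words, Set.mem_ofPred_eq]
      rw [Fin.forall_fin_succ (P := fun i => p.1 i = 0 ↔
        (Fin.cons 0 v : Fin (n + 1) → Fin 2) i = 1)]
      simp only [Fin.cons_zero, Fin.cons_succ, Finsupp.tsub_apply, Finsupp.single_eq_same]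
      have h10 : (Finsupp.single (0 : Fin 2) 1 : Fin 2 →₀ ℕ) 1 = 0 := by simp
      rw [h10, Nat.sub_zero]
      have h01 : ¬ ((0 : Fin 2) = 1) := by decide
      simp only [h01, iff_false]
      constructor
      · rintro ⟨⟨h1, h2, h3, h4⟩, h0⟩
        refine ⟨⟨h0, h1⟩, h2, ?_, h4⟩
        rw [if_pos (Nat.pos_of_ne_zero h0)] at h3
        omega
      · rintro ⟨⟨h0, h1⟩, h2, h3, h4⟩
        refine ⟨⟨h1, h2, ?_, h4⟩, h0⟩
        rw [if_pos (Nat.pos_of_ne_zero h0)]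
        omega
    · rw [if_neg h]
      rw [hle] at h
      simp only [Set.mem_empty_iff_false, iff_false]
      rintro ⟨⟨h1, h2, h3, h4⟩, h0⟩
      rw [if_pos (Nat.pos_of_ne_zero h0)] at h3
      omega
  have hsplit : {p | unrot p ∈ words (Fin.snoc v 0 : Fin (n + 1) → Fin 2) m d} =
      {p | unrot p ∈ words (Fin.snoc v 0 : Fin (n + 1) → Fin 2) m d ∧ p.1 0 = 0} ∪
      {p | unrot p ∈ words (Fin.snoc v 0 : Fin (n + 1) → Fin 2) m d ∧ p.1 0 ≠ 0} := by
    ext p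
    simp only [Set.mem_ofPred_eq, Set.mem_union]
    tauto
  have hdisj : Disjoint
      {p | unrot p ∈ words (Fin.snoc v 0 : Fin (n + 1) → Fin 2) m d ∧ p.1 0 = 0}
      {p | unrot p ∈ words (Fin.snoc v 0 : Fin (n + 1) → Fin 2) m d ∧ p.1 0 ≠ 0} := by
    rw [Set.disjoint_left]
    rintro p ⟨_, h⟩ ⟨_, h'⟩
    exact h' h
  have hfA : {p | unrot p ∈ words (Fin.snoc v 0 : Fin (n + 1) → Fin 2) m d ∧
      p.1 0 = 0}.Finite := by
    rw [← hA]
    exact words_finite _ _ _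
  have hfB : {p | unrot p ∈ words (Fin.snoc v 0 : Fin (n + 1) → Fin 2) m d ∧
      p.1 0 ≠ 0}.Finite := by
    rw [hB]
    split_ifs
    · exact words_finite _ _ _
    · exact Set.finite_empty
  rw [Nat.card_coe_set_eq, himg, Set.ncard_image_of_injective _ hinj, hsplit,
    Set.ncard_union_eq hdisj hfA hfB, ← hA, hB, Nat.card_coe_set_eq]
  congr 1
  split_ifs
  · rw [Nat.card_coe_set_eq]
  · simp

/-- **Bergeron's recurrence for link symmetric functions.** For all `n` and all `v ∈ {0,1}^n`,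
`L_{v0} = L_{1v} + q L_{0v}`. -/
theorem result : ∀ (n : ℕ) (v : Fin n → Fin 2),
    L (Fin.snoc v 0 : Fin (n + 1) → Fin 2) =
      L (Fin.cons 1 v : Fin (n + 1) → Fin 2) + q • L (Fin.cons 0 v : Fin (n + 1) → Fin 2) := by
  intro n v
  ext m d
  rw [map_add, map_add, MvPowerSeries.coeff_smul, q, MvPowerSeries.X,
    MvPowerSeries.coeff_monomial_mul]
  have h := card_words_snoc v m d
  simp only [one_mul]
  change (Nat.card (words (Fin.snoc v 0 : Fin (n + 1) → Fin 2) m d) : ℤ) =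
    (Nat.card (words (Fin.cons 1 v : Fin (n + 1) → Fin 2) m d) : ℤ) +
      (if Finsupp.single 0 1 ≤ d then
        (Nat.card (words (Fin.cons 0 v : Fin (n + 1) → Fin 2) m (d - Finsupp.single 0 1)) : ℤ)
        else 0)
  rw [h]
  push_cast
  split_ifs <;> simp

end Pool.Agent.Results.MP_c90a8c_co.LinkRecurrence
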